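import Pool.Agent.Helper28.NO.Goals

/-!
# Packet I: lower bounds for `Lf (ph μ ^ (2k))` (MP_705522_gt)
-/

namespace Pool.Agent.Helper75.NO

open MeasureTheory Set Pool.Agent.Helper28.NO

/-! ### Explicit integrals of products of cosines -/

lemma ok3 (a A B : ℝ) :
    Ok (fun t => Real.cos (a * t) * (Real.cos (A * t) * Real.cos (B * t))) := by
  obtain ⟨ν, h⟩ := (isLaw_cos A).mul (isLaw_cos B)
  obtain ⟨ν', h'⟩ := (isLaw_cos a).mul h
  exact h'.ok

lemma ok4 (a A B C : ℝ) : Ok (fun t => Real.cos (a * t) *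
    (Real.cos (A * t) * (Real.cos (B * t) * Real.cos (C * t)))) := by
  obtain ⟨ν, h⟩ := (isLaw_cos B).mul (isLaw_cos C)
  obtain ⟨ν', h'⟩ := (isLaw_cos A).mul h
  obtain ⟨ν'', h''⟩ := (isLaw_cos a).mul h'
  exact h''.ok

lemma ok5 (a A B C D : ℝ) : Ok (fun t => Real.cos (a * t) *
    ((Real.cos (A * t) * Real.cos (B * t)) * (Real.cos (C * t) * Real.cos (D * t)))) := by
  obtain ⟨ν, h⟩ := (isLaw_cos A).mul (isLaw_cos B)
  obtain ⟨ν', h'⟩ := (isLaw_cos C).mul (isLaw_cos D)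
  obtain ⟨ν1, h1⟩ := h.mul h'
  obtain ⟨ν2, h2⟩ := (isLaw_cos a).mul h1
  exact h2.ok

lemma Lf_cos3 (a A B : ℝ) :
    Lf (fun t => Real.cos (a * t) * (Real.cos (A * t) * Real.cos (B * t))) =
      (max |a| |A + B| + max |a| |A - B|) / 2 := by
  have h := Lf_aff (ok_cos_cos a (A + B)) (ok_cos_cos a (A - B)) (α := 1 / 2) (β := 1 / 2)
    (by norm_num)
  rw [Lf_cos_cos, Lf_cos_cos] at h
  rw [show (max |a| |A + B| + max |a| |A - B|) / 2 =
    1 / 2 * max |a| |A + B| + 1 / 2 * max |a| |A - B| by ring, ← h]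
  congr 1
  ext t
  rw [add_mul, sub_mul, Real.cos_add, Real.cos_sub]
  ring

lemma Lf_cos4 (a A w z : ℝ) : Lf (fun t => Real.cos (a * t) *
    (Real.cos (A * t) * (Real.cos (w * t) * Real.cos (z * t)))) =
      ((max |a| |A + (w + z)| + max |a| |A - (w + z)|) +
        (max |a| |A + (w - z)| + max |a| |A - (w - z)|)) / 4 := by
  have h := Lf_aff (ok3 a A (w + z)) (ok3 a A (w - z)) (α := 1 / 2) (β := 1 / 2) (by norm_num)
  rw [Lf_cos3, Lf_cos3] at h
  have e : ((max |a| |A + (w + z)| + max |a| |A - (w + z)|) +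
        (max |a| |A + (w - z)| + max |a| |A - (w - z)|)) / 4 =
      1 / 2 * ((max |a| |A + (w + z)| + max |a| |A - (w + z)|) / 2) +
        1 / 2 * ((max |a| |A + (w - z)| + max |a| |A - (w - z)|) / 2) := by ring
  rw [e, ← h]
  congr 1
  ext t
  rw [add_mul w, sub_mul w, Real.cos_add, Real.cos_sub]
  ring

/-- the explicit value of `Lf` of a product of five cosines -/
noncomputable def F5 (a u v w z : ℝ) : ℝ :=
  (((max |a| |(u + v) + (w + z)| + max |a| |(u + v) - (w + z)|) +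
        (max |a| |(u + v) + (w - z)| + max |a| |(u + v) - (w - z)|)) +
   ((max |a| |(u - v) + (w + z)| + max |a| |(u - v) - (w + z)|) +
        (max |a| |(u - v) + (w - z)| + max |a| |(u - v) - (w - z)|))) / 8

lemma Lf_cos5 (a u v w z : ℝ) : Lf (fun t => Real.cos (a * t) *
    ((Real.cos (u * t) * Real.cos (v * t)) * (Real.cos (w * t) * Real.cos (z * t)))) =
      F5 a u v w z := by
  have h := Lf_aff (ok4 a (u + v) w z) (ok4 a (u - v) w z) (α := 1 / 2) (β := 1 / 2) (by norm_num)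
  rw [Lf_cos4, Lf_cos4] at h
  have e : F5 a u v w z = 1 / 2 * (((max |a| |(u + v) + (w + z)| + max |a| |(u + v) - (w + z)|) +
        (max |a| |(u + v) + (w - z)| + max |a| |(u + v) - (w - z)|)) / 4) +
        1 / 2 * (((max |a| |(u - v) + (w + z)| + max |a| |(u - v) - (w + z)|) +
        (max |a| |(u - v) + (w - z)| + max |a| |(u - v) - (w - z)|)) / 4) := by
    unfold F5; ring
  rw [e, ← h]
  congr 1
  ext t
  rw [add_mul u, sub_mul u, Real.cos_add, Real.cos_sub]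
  ring

/-! ### Pointwise lower bounds -/

lemma F5_zero (u v w z : ℝ) :
    (3 * (u + v + w + z) + (|(u + v) - (w + z)| +
      2 * max |u - v| |w - z|)) / 8 ≤ F5 0 u v w z := by
  unfold F5
  have h0 : |(0 : ℝ)| = 0 := abs_zero
  rw [h0]
  have e : ∀ x : ℝ, max 0 |x| = |x| := fun x => max_eq_right (abs_nonneg x)
  simp only [e]
  have h := max_abs_eq (u - v) (w - z)
  have h1 := le_abs_self ((u + v) + (w + z))
  have h2 := le_abs_self ((u + v) + (w - z))
  have h3 := le_abs_self ((u + v) - (w - z))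
  have h4 := le_abs_self ((u - v) + (w + z))
  have h5 := neg_abs_le ((u - v) - (w + z))
  rw [h]
  linarith

lemma F5_two (u v w z : ℝ) :
    (10 + 2 * (u + v + w + z) + (|u - v| + |w - z|)) / 8 ≤ F5 2 u v w z := by
  unfold F5
  have h0 : |(2 : ℝ)| = 2 := by norm_num
  rw [h0]
  have k1 : ∀ x : ℝ, (2 : ℝ) ≤ max 2 |x| := fun x => le_max_left _ _
  have k2 : ∀ x : ℝ, x ≤ max 2 |x| := fun x => (le_abs_self x).trans (le_max_right _ _)
  have k3 : ∀ x : ℝ, -x ≤ max 2 |x| := fun x => (neg_le_abs x).trans (le_max_right _ _)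
  have p1 : 2 + (u + v) + (w + z) ≤
      max 2 |(u + v) + (w + z)| + max 2 |(u + v) - (w + z)| := by
    have := k2 ((u + v) + (w + z)); have := k1 ((u + v) - (w + z)); linarith
  have p2 : 2 + (u + v) + |w - z| ≤
      max 2 |(u + v) + (w - z)| + max 2 |(u + v) - (w - z)| := by
    rcases abs_cases (w - z) with ⟨h, -⟩ | ⟨h, -⟩ <;> rw [h]
    · have := k2 ((u + v) + (w - z)); have := k1 ((u + v) - (w - z)); linarith
    · have := k1 ((u + v) + (w - z)); have := k2 ((u + v) - (w - z)); linarith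
  have p3 : 2 + (w + z) + |u - v| ≤
      max 2 |(u - v) + (w + z)| + max 2 |(u - v) - (w + z)| := by
    rcases abs_cases (u - v) with ⟨h, -⟩ | ⟨h, -⟩ <;> rw [h]
    · have := k2 ((u - v) + (w + z)); have := k1 ((u - v) - (w + z)); linarith
    · have := k1 ((u - v) + (w + z)); have := k3 ((u - v) - (w + z)); linarith
  have p4 := k1 ((u - v) + (w - z))
  have p5 := k1 ((u - v) - (w - z))
  linarith

/-! ### Expectations -/

lemma mp4 (μ : Measure ℝ) [IsProbabilityMeasure μ] :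
    MeasurePreserving (fun p : (ℝ × ℝ) × (ℝ × ℝ) => ((p.1.1, p.2.1), (p.1.2, p.2.2)))
      ((μ.prod μ).prod (μ.prod μ)) ((μ.prod μ).prod (μ.prod μ)) := by
  have a1 := measurePreserving_prodAssoc μ μ (μ.prod μ)
  have a2 := measurePreserving_prodAssoc μ μ μ
  have a3 := (Measure.measurePreserving_swap (μ := μ) (ν := μ)).prod (MeasurePreserving.id μ)
  have a4 := a2.comp (a3.comp a2.symm)
  have a5 := (MeasurePreserving.id μ).prod a4
  exact (a1.symm _).comp (a5.comp a1)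

variable {q : ℝ} {μ : Measure ℝ}

lemma I2 (B : Base q μ) : Lf (fun t => ph μ t ^ 2) = cc q := by
  have := B.prob
  have i1 : Integrable (fun p : ℝ × ℝ => p.1) (μ.prod μ) := B.int.comp_fst μ
  have i2 : Integrable (fun p : ℝ × ℝ => p.2) (μ.prod μ) := B.int.comp_snd μ
  have hm := mix (μ.prod μ) (fun p t => Real.cos (p.1 * t) * Real.cos (p.2 * t))
    (by unfold Function.uncurry; fun_prop) (fun p => ok_cos_cos p.1 p.2) (by
      refine (i1.abs.sup i2.abs).congr (Filter.Eventually.of_forall fun p => ?_)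
      exact (Lf_cos_cos p.1 p.2).symm)
  have e : (fun t => ph μ t ^ 2) =
      fun t => ∫ p : ℝ × ℝ, Real.cos (p.1 * t) * Real.cos (p.2 * t) ∂(μ.prod μ) := by
    ext t
    rw [integral_prod_mul (fun x => Real.cos (x * t)) (fun x => Real.cos (x * t)), ph, sq]
    simp_rw [mul_comm t]
  rw [e, hm.2]
  have p1 : ∀ᵐ p : ℝ × ℝ ∂(μ.prod μ), 0 < p.1 :=
    (Measure.quasiMeasurePreserving_fst (μ := μ) (ν := μ)).ae B.pos
  have p2 : ∀ᵐ p : ℝ × ℝ ∂(μ.prod μ), 0 < p.2 :=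
    (Measure.quasiMeasurePreserving_snd (μ := μ) (ν := μ)).ae B.pos
  calc _ = ∫ p : ℝ × ℝ, max (1 * p.1) (1 * p.2) ∂(μ.prod μ) := by
        refine integral_congr_ae ?_
        filter_upwards [p1, p2] with p h1 h2
        simp only [Lf_cos_cos, one_mul, abs_of_pos h1, abs_of_pos h2]
    _ = cc q := by
        rw [B.max_eq 1 1 zero_le_one zero_le_one, cc]
        norm_num

lemma int_abs_sub (B : Base q μ) :
    ∫ p : ℝ × ℝ, |p.1 - p.2| ∂(μ.prod μ) = 2 * (cc q - 1) := by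
  have := B.prob
  have i1 : Integrable (fun p : ℝ × ℝ => p.1) (μ.prod μ) := B.int.comp_fst μ
  have i2 : Integrable (fun p : ℝ × ℝ => p.2) (μ.prod μ) := B.int.comp_snd μ
  have h := B.max_eq 1 1 zero_le_one zero_le_one
  have e : ∀ p : ℝ × ℝ, |p.1 - p.2| = 2 * max (1 * p.1) (1 * p.2) - (p.1 + p.2) := by
    intro p
    rcases abs_cases (p.1 - p.2) with ⟨h, h'⟩ | ⟨h, h'⟩ <;> rw [h, one_mul, one_mul]
    · rw [max_eq_left (by linarith)]; ring
    · rw [max_eq_right (by linarith)]; ring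
  have i3 : Integrable (fun p : ℝ × ℝ => max (1 * p.1) (1 * p.2)) (μ.prod μ) := by
    have := i1.sup i2
    simp only [one_mul]
    exact this
  have i4 : Integrable (fun p : ℝ × ℝ => p.1 + p.2) (μ.prod μ) := i1.add i2
  simp_rw [e]
  rw [integral_sub (i3.const_mul 2) i4, integral_const_mul, h, integral_add i1 i2,
    integral_fun_fst (fun x : ℝ => x), integral_fun_snd (fun x : ℝ => x), B.mean, cc]
  norm_num
  ring

section Four

variable (B : Base q μ)

include B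

lemma i11 : Integrable (fun p : (ℝ × ℝ) × (ℝ × ℝ) => p.1.1) ((μ.prod μ).prod (μ.prod μ)) := by
  have := B.prob
  exact (B.int.comp_fst μ).comp_fst (μ.prod μ)

lemma i12 : Integrable (fun p : (ℝ × ℝ) × (ℝ × ℝ) => p.1.2) ((μ.prod μ).prod (μ.prod μ)) := by
  have := B.prob
  exact (B.int.comp_snd μ).comp_fst (μ.prod μ)

lemma i21 : Integrable (fun p : (ℝ × ℝ) × (ℝ × ℝ) => p.2.1) ((μ.prod μ).prod (μ.prod μ)) := by
  have := B.prob
  exact (B.int.comp_fst μ).comp_snd (μ.prod μ)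

lemma i22 : Integrable (fun p : (ℝ × ℝ) × (ℝ × ℝ) => p.2.2) ((μ.prod μ).prod (μ.prod μ)) := by
  have := B.prob
  exact (B.int.comp_snd μ).comp_snd (μ.prod μ)

lemma m11 : ∫ p : (ℝ × ℝ) × (ℝ × ℝ), p.1.1 ∂((μ.prod μ).prod (μ.prod μ)) = 1 := by
  have := B.prob
  rw [integral_fun_fst (fun p : ℝ × ℝ => p.1), integral_fun_fst (fun p : ℝ => p), B.mean]
  simp

lemma m12 : ∫ p : (ℝ × ℝ) × (ℝ × ℝ), p.1.2 ∂((μ.prod μ).prod (μ.prod μ)) = 1 := by
  have := B.prob
  rw [integral_fun_fst (fun p : ℝ × ℝ => p.2), integral_fun_snd (fun p : ℝ => p), B.mean]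
  simp

lemma m21 : ∫ p : (ℝ × ℝ) × (ℝ × ℝ), p.2.1 ∂((μ.prod μ).prod (μ.prod μ)) = 1 := by
  have := B.prob
  rw [integral_fun_snd (fun p : ℝ × ℝ => p.1), integral_fun_fst (fun p : ℝ => p), B.mean]
  simp

lemma m22 : ∫ p : (ℝ × ℝ) × (ℝ × ℝ), p.2.2 ∂((μ.prod μ).prod (μ.prod μ)) = 1 := by
  have := B.prob
  rw [integral_fun_snd (fun p : ℝ × ℝ => p.2), integral_fun_snd (fun p : ℝ => p), B.mean]
  simp

lemma d1 : ∫ p : (ℝ × ℝ) × (ℝ × ℝ), |p.1.1 - p.1.2| ∂((μ.prod μ).prod (μ.prod μ)) =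
    2 * (cc q - 1) := by
  have := B.prob
  rw [integral_fun_fst (fun p : ℝ × ℝ => |p.1 - p.2|), int_abs_sub B]
  simp

lemma d2 : ∫ p : (ℝ × ℝ) × (ℝ × ℝ), |p.2.1 - p.2.2| ∂((μ.prod μ).prod (μ.prod μ)) =
    2 * (cc q - 1) := by
  have := B.prob
  rw [integral_fun_snd (fun p : ℝ × ℝ => |p.1 - p.2|), int_abs_sub B]
  simp

/-- the balanced term -/
lemma bal : 8 / 3 * (cc q - 1) ≤
    ∫ p : (ℝ × ℝ) × (ℝ × ℝ), |(p.1.1 + p.1.2) - (p.2.1 + p.2.2)| ∂((μ.prod μ).prod (μ.prod μ)) := by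
  have := B.prob
  have i11 := i11 B
  have i12 := i12 B
  have i21 := i21 B
  have i22 := i22 B
  -- swap the coordinates of the second pair
  have s1 : MeasurePreserving (fun p : (ℝ × ℝ) × (ℝ × ℝ) => (p.1, (p.2.2, p.2.1)))
      ((μ.prod μ).prod (μ.prod μ)) ((μ.prod μ).prod (μ.prod μ)) :=
    (MeasurePreserving.id (μ.prod μ)).prod (Measure.measurePreserving_swap (μ := μ) (ν := μ))
  have sw : ∀ {σ : (ℝ × ℝ) × (ℝ × ℝ) → (ℝ × ℝ) × (ℝ × ℝ)},
      MeasurePreserving σ ((μ.prod μ).prod (μ.prod μ)) ((μ.prod μ).prod (μ.prod μ)) →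
      ∀ f : (ℝ × ℝ) × (ℝ × ℝ) → ℝ, AEStronglyMeasurable f ((μ.prod μ).prod (μ.prod μ)) →
      ∫ p, f p ∂((μ.prod μ).prod (μ.prod μ)) = ∫ p, f (σ p) ∂((μ.prod μ).prod (μ.prod μ)) := by
    intro σ hσ f hf
    conv_lhs => rw [← hσ.map_eq]
    rw [integral_map hσ.aemeasurable (by rw [hσ.map_eq]; exact hf)]
  have j1 : Integrable (fun p : (ℝ × ℝ) × (ℝ × ℝ) => |(p.1.1 - p.1.2) + (p.2.1 - p.2.2)|)
      ((μ.prod μ).prod (μ.prod μ)) := ((i11.sub i12).add (i21.sub i22)).abs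
  have j2 : Integrable (fun p : (ℝ × ℝ) × (ℝ × ℝ) => |(p.1.1 - p.1.2) - (p.2.1 - p.2.2)|)
      ((μ.prod μ).prod (μ.prod μ)) := ((i11.sub i12).sub (i21.sub i22)).abs
  have j3 : Integrable (fun p : (ℝ × ℝ) × (ℝ × ℝ) => |(p.1.1 + p.1.2) - (p.2.1 + p.2.2)|)
      ((μ.prod μ).prod (μ.prod μ)) := ((i11.add i12).sub (i21.add i22)).abs
  have e1 : ∫ p : (ℝ × ℝ) × (ℝ × ℝ), |(p.1.1 - p.1.2) + (p.2.1 - p.2.2)|
        ∂((μ.prod μ).prod (μ.prod μ)) =
      ∫ p : (ℝ × ℝ) × (ℝ × ℝ), |(p.1.1 - p.1.2) - (p.2.1 - p.2.2)|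
        ∂((μ.prod μ).prod (μ.prod μ)) := by
    rw [sw s1 _ j1.aestronglyMeasurable]
    refine integral_congr_ae (Filter.Eventually.of_forall fun p => ?_)
    simp only
    congr 1
    ring
  have e2 : ∫ p : (ℝ × ℝ) × (ℝ × ℝ), |(p.1.1 + p.1.2) - (p.2.1 + p.2.2)|
        ∂((μ.prod μ).prod (μ.prod μ)) =
      ∫ p : (ℝ × ℝ) × (ℝ × ℝ), |(p.1.1 - p.1.2) + (p.2.1 - p.2.2)|
        ∂((μ.prod μ).prod (μ.prod μ)) := by
    rw [sw (mp4 μ) _ j3.aestronglyMeasurable]
    refine integral_congr_ae (Filter.Eventually.of_forall fun p => ?_)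
    simp only
    congr 1
    ring
  have e3 := B.four
  have e4 : ∫ p : (ℝ × ℝ) × (ℝ × ℝ), max |p.1.1 - p.1.2| |p.2.1 - p.2.2|
        ∂((μ.prod μ).prod (μ.prod μ)) =
      (∫ p : (ℝ × ℝ) × (ℝ × ℝ), |(p.1.1 - p.1.2) + (p.2.1 - p.2.2)|
        ∂((μ.prod μ).prod (μ.prod μ)) +
      ∫ p : (ℝ × ℝ) × (ℝ × ℝ), |(p.1.1 - p.1.2) - (p.2.1 - p.2.2)|
        ∂((μ.prod μ).prod (μ.prod μ))) / 2 := by
    rw [← integral_add j1 j2, ← integral_div]
    refine integral_congr_ae (Filter.Eventually.of_forall fun p => ?_)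
    exact max_abs_eq _ _
  rw [e4, ← e1] at e3
  rw [e2]
  linarith

lemma F5_int (a : ℝ) : Integrable (fun p : (ℝ × ℝ) × (ℝ × ℝ) => F5 a p.1.1 p.1.2 p.2.1 p.2.2)
    ((μ.prod μ).prod (μ.prod μ)) := by
  have := B.prob
  have i11 := i11 B
  have i12 := i12 B
  have i21 := i21 B
  have i22 := i22 B
  have c := integrable_const (μ := (μ.prod μ).prod (μ.prod μ)) |a|
  unfold F5
  refine Integrable.div_const ?_ 8
  refine ((((c.sup ?_).add (c.sup ?_)).add ((c.sup ?_).add (c.sup ?_))).add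
    (((c.sup ?_).add (c.sup ?_)).add ((c.sup ?_).add (c.sup ?_))))
  · exact ((i11.add i12).add (i21.add i22)).abs
  · exact ((i11.add i12).sub (i21.add i22)).abs
  · exact ((i11.add i12).add (i21.sub i22)).abs
  · exact ((i11.add i12).sub (i21.sub i22)).abs
  · exact ((i11.sub i12).add (i21.add i22)).abs
  · exact ((i11.sub i12).sub (i21.add i22)).abs
  · exact ((i11.sub i12).add (i21.sub i22)).abs
  · exact ((i11.sub i12).sub (i21.sub i22)).abs

lemma G4_eq (a : ℝ) : Lf (fun t => Real.cos (a * t) * ph μ t ^ 4) =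
    ∫ p : (ℝ × ℝ) × (ℝ × ℝ), F5 a p.1.1 p.1.2 p.2.1 p.2.2 ∂((μ.prod μ).prod (μ.prod μ)) := by
  have := B.prob
  have hm := mix ((μ.prod μ).prod (μ.prod μ)) (fun p t => Real.cos (a * t) *
    ((Real.cos (p.1.1 * t) * Real.cos (p.1.2 * t)) *
      (Real.cos (p.2.1 * t) * Real.cos (p.2.2 * t))))
    (by unfold Function.uncurry; fun_prop) (fun p => ok5 a p.1.1 p.1.2 p.2.1 p.2.2) (by
      refine (F5_int B a).congr (Filter.Eventually.of_forall fun p => ?_)
      exact (Lf_cos5 a p.1.1 p.1.2 p.2.1 p.2.2).symm)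
  have e : (fun t => Real.cos (a * t) * ph μ t ^ 4) =
      fun t => ∫ p : (ℝ × ℝ) × (ℝ × ℝ), Real.cos (a * t) *
    ((Real.cos (p.1.1 * t) * Real.cos (p.1.2 * t)) *
      (Real.cos (p.2.1 * t) * Real.cos (p.2.2 * t))) ∂((μ.prod μ).prod (μ.prod μ)) := by
    ext t
    rw [integral_const_mul, integral_prod_mul
      (fun x : ℝ × ℝ => Real.cos (x.1 * t) * Real.cos (x.2 * t))
      (fun x : ℝ × ℝ => Real.cos (x.1 * t) * Real.cos (x.2 * t)),
      integral_prod_mul (fun x => Real.cos (x * t)) (fun x => Real.cos (x * t)), ph]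
    simp_rw [mul_comm t]
    ring
  rw [e, hm.2]
  exact integral_congr_ae (Filter.Eventually.of_forall fun p => Lf_cos5 a _ _ _ _)

lemma G4_zero : 3 / 2 + (cc q - 1) ≤ Lf (fun t => Real.cos (0 * t) * ph μ t ^ 4) := by
  have := B.prob
  rw [G4_eq B]
  have i11 := i11 B
  have i12 := i12 B
  have i21 := i21 B
  have i22 := i22 B
  have k1 : Integrable (fun p : (ℝ × ℝ) × (ℝ × ℝ) => 3 * (p.1.1 + p.1.2 + p.2.1 + p.2.2))
    ((μ.prod μ).prod (μ.prod μ)) := (((i11.add i12).add i21).add i22).const_mul 3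
  have k2 : Integrable (fun p : (ℝ × ℝ) × (ℝ × ℝ) => |(p.1.1 + p.1.2) - (p.2.1 + p.2.2)|)
      ((μ.prod μ).prod (μ.prod μ)) := ((i11.add i12).sub (i21.add i22)).abs
  have k3 : Integrable (fun p : (ℝ × ℝ) × (ℝ × ℝ) => 2 * max |p.1.1 - p.1.2| |p.2.1 - p.2.2|)
      ((μ.prod μ).prod (μ.prod μ)) := ((i11.sub i12).abs.sup (i21.sub i22).abs).const_mul 2
  have k4 : Integrable (fun p : (ℝ × ℝ) × (ℝ × ℝ) => |(p.1.1 + p.1.2) - (p.2.1 + p.2.2)| +
      2 * max |p.1.1 - p.1.2| |p.2.1 - p.2.2|) ((μ.prod μ).prod (μ.prod μ)) := k2.add k3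
  have k5 : Integrable (fun p : (ℝ × ℝ) × (ℝ × ℝ) => (3 * (p.1.1 + p.1.2 + p.2.1 + p.2.2) +
      (|(p.1.1 + p.1.2) - (p.2.1 + p.2.2)| + 2 * max |p.1.1 - p.1.2| |p.2.1 - p.2.2|)) / 8)
      ((μ.prod μ).prod (μ.prod μ)) := (k1.add k4).div_const 8
  have s1 : Integrable (fun p : (ℝ × ℝ) × (ℝ × ℝ) => p.1.1 + p.1.2)
      ((μ.prod μ).prod (μ.prod μ)) := i11.add i12
  have s2 : Integrable (fun p : (ℝ × ℝ) × (ℝ × ℝ) => p.1.1 + p.1.2 + p.2.1)
      ((μ.prod μ).prod (μ.prod μ)) := s1.add i21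
  have h := integral_mono k5 (F5_int B 0)
    (fun p => F5_zero p.1.1 p.1.2 p.2.1 p.2.2)
  refine le_trans ?_ h
  rw [integral_div, integral_add k1 k4, integral_add k2 k3, integral_const_mul,
    integral_const_mul, integral_add s2 i22, integral_add s1 i21,
    integral_add i11 i12, m11 B, m12 B, m21 B, m22 B]
  have a1 := bal B
  have a2 := B.four
  linarith

lemma G4_two : 9 / 4 + (cc q - 1) / 2 ≤ Lf (fun t => Real.cos (2 * t) * ph μ t ^ 4) := by
  have := B.prob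
  rw [G4_eq B]
  have i11 := i11 B
  have i12 := i12 B
  have i21 := i21 B
  have i22 := i22 B
  have k0 := integrable_const (μ := (μ.prod μ).prod (μ.prod μ)) (10 : ℝ)
  have k1 : Integrable (fun p : (ℝ × ℝ) × (ℝ × ℝ) => 2 * (p.1.1 + p.1.2 + p.2.1 + p.2.2))
    ((μ.prod μ).prod (μ.prod μ)) := (((i11.add i12).add i21).add i22).const_mul 2
  have k2 : Integrable (fun p : (ℝ × ℝ) × (ℝ × ℝ) => |p.1.1 - p.1.2|)
      ((μ.prod μ).prod (μ.prod μ)) := (i11.sub i12).abs
  have k3 : Integrable (fun p : (ℝ × ℝ) × (ℝ × ℝ) => |p.2.1 - p.2.2|)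
      ((μ.prod μ).prod (μ.prod μ)) := (i21.sub i22).abs
  have k4 : Integrable (fun p : (ℝ × ℝ) × (ℝ × ℝ) => |p.1.1 - p.1.2| + |p.2.1 - p.2.2|)
      ((μ.prod μ).prod (μ.prod μ)) := k2.add k3
  have k5 : Integrable (fun p : (ℝ × ℝ) × (ℝ × ℝ) => 10 + 2 * (p.1.1 + p.1.2 + p.2.1 + p.2.2))
      ((μ.prod μ).prod (μ.prod μ)) := k0.add k1
  have k6 : Integrable (fun p : (ℝ × ℝ) × (ℝ × ℝ) => (10 + 2 * (p.1.1 + p.1.2 + p.2.1 + p.2.2) +
      (|p.1.1 - p.1.2| + |p.2.1 - p.2.2|)) / 8) ((μ.prod μ).prod (μ.prod μ)) :=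
    (k5.add k4).div_const 8
  have s1 : Integrable (fun p : (ℝ × ℝ) × (ℝ × ℝ) => p.1.1 + p.1.2)
      ((μ.prod μ).prod (μ.prod μ)) := i11.add i12
  have s2 : Integrable (fun p : (ℝ × ℝ) × (ℝ × ℝ) => p.1.1 + p.1.2 + p.2.1)
      ((μ.prod μ).prod (μ.prod μ)) := s1.add i21
  have h := integral_mono k6 (F5_int B 2)
    (fun p => F5_two p.1.1 p.1.2 p.2.1 p.2.2)
  refine le_trans ?_ h
  rw [integral_div, integral_add k5 k4, integral_add k0 k1, integral_add k2 k3,
    integral_const_mul,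
    integral_add s2 i22, integral_add s1 i21,
    integral_add i11 i12, m11 B, m12 B, m21 B, m22 B, d1 B, d2 B]
  simp
  linarith

lemma G4_big (a : ℝ) : |a| ≤ Lf (fun t => Real.cos (a * t) * ph μ t ^ 4) := by
  have := B.prob
  obtain ⟨ν, h⟩ := (isLaw_ph B.int 1).pow 4
  have h' := h.le_Lf_cos a
  simp only [one_mul] at h'
  exact (le_max_left _ _).trans h'

/-- mixing over the last variable: Jensen -/
lemma G4_mix (a : ℝ) : Ok (fun t => ph μ (a * t) * ph μ t ^ 4) ∧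
    Lf (fun t => Real.cos (a * t) * ph μ t ^ 4) ≤ Lf (fun t => ph μ (a * t) * ph μ t ^ 4) := by
  have := B.prob
  obtain ⟨ν, h⟩ := (isLaw_ph B.int 1).pow 4
  simp only [one_mul] at h
  have hν := h.prob
  have ha := isLaw_ph B.int a
  have hLa : Lf (fun t => ph μ (a * t)) = |a| := by
    rw [ha.Lf_eq, integral_map (by fun_prop) (by fun_prop)]
    calc ∫ y, |a * y| ∂μ = ∫ y, |a| * y ∂μ := by
          refine integral_congr_ae ?_
          filter_upwards [B.pos] with y hy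
          rw [abs_mul, abs_of_pos hy]
      _ = |a| := by rw [integral_const_mul, B.mean, mul_one]
  obtain ⟨ν', h2⟩ := ha.mul h
  refine ⟨h2.ok, ?_⟩
  -- `Lf (ph (a t) ph^4)` as an integral over `ν`
  have hprob := ha.prob
  have kk : ∀ x : ℝ, IsLaw (fun t => ph μ (a * t)) (μ.map (fun y => a * y)) := fun _ => ha
  have hLx : ∀ x : ℝ, Lf (fun t => Real.cos (x * t) * ph μ (a * t)) =
      ∫ y, max |x| |y| ∂(μ.map (fun y => a * y)) := fun x => (ha.main x).2
  have mph : Measurable (fun t => ph μ (a * t)) := ha.ok.meas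
  have ibd : ∀ x : ℝ, ∫ y, max |x| |y| ∂(μ.map (fun y => a * y)) ≤ |x| + |a| := by
    intro x
    have : ∫ y, max |x| |y| ∂(μ.map (fun y => a * y)) ≤
        ∫ y, (|x| + |y|) ∂(μ.map (fun y => a * y)) := by
      refine integral_mono (integrable_max_abs ha.int x) ((integrable_const _).add ha.int.abs)
        (fun y => ?_)
      exact max_le (by linarith [abs_nonneg y]) (by linarith [abs_nonneg x])
    rw [integral_add (integrable_const _) ha.int.abs, ← ha.Lf_eq, hLa] at this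
    simpa using this
  have hmeas : Measurable (fun x : ℝ => ∫ y, max |x| |y| ∂(μ.map (fun y => a * y))) := by
    have : StronglyMeasurable (Function.uncurry fun (x y : ℝ) => max |x| |y|) := by
      apply Measurable.stronglyMeasurable
      unfold Function.uncurry
      fun_prop
    exact this.integral_prod_right.measurable
  have hL : Integrable (fun x : ℝ => Lf (fun t => Real.cos (x * t) * ph μ (a * t))) ν := by
    simp only [hLx]
    refine Integrable.mono' (h.int.abs.add (integrable_const |a|)) hmeas.aestronglyMeasurable ?_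
    refine Filter.Eventually.of_forall fun x => ?_
    rw [Real.norm_of_nonneg (integral_nonneg (fun y => le_max_of_le_left (abs_nonneg x)))]
    exact ibd x
  have hm := mix ν (fun x t => Real.cos (x * t) * ph μ (a * t))
    (by
      unfold Function.uncurry
      exact (by fun_prop : Measurable fun p : ℝ × ℝ => Real.cos (p.1 * p.2)).mul
        (mph.comp measurable_snd)) (fun x => (ha.main x).1) hL
  have e : (fun t => ph μ (a * t) * ph μ t ^ 4) =
      fun t => ∫ x, Real.cos (x * t) * ph μ (a * t) ∂ν := by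
    ext t
    rw [integral_mul_const, h.eq t, mul_comm]
    simp_rw [mul_comm t]
  rw [e, hm.2, (h.main a).2]
  refine integral_mono (integrable_max_abs h.int a) hL (fun x => ?_)
  have := ha.le_Lf_cos x
  rw [hLa, max_comm] at this
  exact this

end Four

/-! ### The comparison values -/

/-- `Lf (cos⁴ t · cos (a t))` -/
lemma J4_eq (a : ℝ) : Lf (fun t => Real.cos (a * t) * Real.cos t ^ 4) =
    (3 * |a| + 4 * max |a| 2 + max |a| 4) / 8 := by
  have h1 := Lf_aff (ok_cos a) (ok_cos_cos a 2) (α := 3 / 7) (β := 4 / 7) (by norm_num)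
  have o1 : Ok (fun t => (3 / 7 : ℝ) * Real.cos (a * t) +
      4 / 7 * (Real.cos (a * t) * Real.cos (2 * t))) := by
    refine ok_aff (ok_cos a) (ok_cos_cos a 2) (by norm_num) (fun t => ?_)
    have h1 := (ok_cos a).abs_le t
    have h2 := (ok_cos_cos a 2).abs_le t
    rw [abs_le] at h1 h2 ⊢
    constructor <;> linarith [h1.1, h1.2, h2.1, h2.2]
  have h2 := Lf_aff o1 (ok_cos_cos a 4) (α := 7 / 8) (β := 1 / 8) (by norm_num)
  rw [h1, Lf_cos, Lf_cos_cos, Lf_cos_cos] at h2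
  rw [show |(2 : ℝ)| = 2 by norm_num, show |(4 : ℝ)| = 4 by norm_num] at h2
  have e : (3 * |a| + 4 * max |a| 2 + max |a| 4) / 8 =
      7 / 8 * (3 / 7 * |a| + 4 / 7 * max |a| 2) + 1 / 8 * max |a| 4 := by ring
  rw [e, ← h2]
  congr 1
  ext t
  have c2 : Real.cos (2 * t) = 2 * Real.cos t ^ 2 - 1 := Real.cos_two_mul t
  have c4 : Real.cos (4 * t) = 2 * (2 * Real.cos t ^ 2 - 1) ^ 2 - 1 := by
    rw [show 4 * t = 2 * (2 * t) by ring, Real.cos_two_mul, c2]
  rw [c2, c4]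
  ring

lemma even_cases (z : ℤ) : |(2 * z : ℝ)| = 0 ∨ |(2 * z : ℝ)| = 2 ∨ 4 ≤ |(2 * z : ℝ)| := by
  have h : (|2 * z| : ℤ) = 0 ∨ (|2 * z| : ℤ) = 2 ∨ 4 ≤ (|2 * z| : ℤ) := by
    rcases abs_cases (2 * z) with ⟨h, _⟩ | ⟨h, _⟩ <;> rw [h] <;> omega
  rcases h with h | h | h
  · left; exact_mod_cast congrArg (Int.cast : ℤ → ℝ) h
  · right; left; exact_mod_cast congrArg (Int.cast : ℤ → ℝ) h
  · right; right; exact_mod_cast h

/-- termwise comparison -/
lemma term (B : Base q μ) (z : ℤ) :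
    Lf (fun t => Real.cos ((2 * z : ℝ) * t) * Real.cos t ^ 4) +
      (cc q - 1) / 4 * (max |(2 * z : ℝ)| 4 - |(2 * z : ℝ)|) ≤
    Lf (fun t => ph μ ((2 * z : ℝ) * t) * ph μ t ^ 4) := by
  refine le_trans ?_ (G4_mix B (2 * z : ℝ)).2
  rw [J4_eq]
  rcases even_cases z with h | h | h
  · have h0 : (2 * z : ℝ) = 0 := abs_eq_zero.1 h
    rw [h0, abs_zero]
    have := G4_zero B
    norm_num
    norm_num at this
    linarith
  · have hsym : Lf (fun t => Real.cos ((2 * z : ℝ) * t) * ph μ t ^ 4) =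
        Lf (fun t => Real.cos (2 * t) * ph μ t ^ 4) := by
      congr 1
      ext t
      congr 1
      rcases abs_eq (by norm_num : (0 : ℝ) ≤ 2) |>.1 h with h' | h' <;> rw [h']
      rw [neg_mul, Real.cos_neg]
    rw [hsym, h]
    have := G4_two B
    norm_num
    linarith
  · have := G4_big B (2 * z : ℝ)
    rw [max_eq_left h, max_eq_left (by linarith)]
    linarith

lemma sum_coef (m : ℕ) :
    ∑ j ∈ Finset.range (2 * m + 1), ((2 * m).choose j : ℝ) / 4 ^ m = 1 := by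
  rw [← Finset.sum_div, div_eq_one_iff_eq (by positivity)]
  have := Nat.sum_range_choose (2 * m)
  rw [show (4 : ℝ) ^ m = 2 ^ (2 * m) by rw [pow_mul]; norm_num]
  exact_mod_cast this

lemma ok_cospow (n : ℕ) : Ok (fun t => Real.cos t ^ n) := by
  obtain ⟨ν, h⟩ := (isLaw_cos 1).pow n
  simpa using h.ok

lemma ok_cospow' (a : ℝ) (n : ℕ) : Ok (fun t => Real.cos (a * t) * Real.cos t ^ n) := by
  obtain ⟨ν, h⟩ := (isLaw_cos 1).pow n
  obtain ⟨ν', h'⟩ := (isLaw_cos a).mul h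
  simpa using h'.ok

theorem goalI (hE : GExp) (hJ : GJ) : GI := by
  intro q μ B
  have := B.prob
  refine ⟨I2 B, fun m => ?_⟩
  -- notation
  set b : ℕ → ℤ := fun j => (m : ℤ) - (j : ℤ) with hb
  have hbr : ∀ j : ℕ, (2 * (b j : ℝ)) = 2 * (m : ℝ) - 2 * (j : ℝ) := by
    intro j; simp [hb]; ring
  set al : ℕ → ℝ := fun j => ((2 * m).choose j : ℝ) / 4 ^ m with hal
  have hal0 : ∀ j, 0 ≤ al j := fun j => by simp only [hal]; positivity
  have hal1 : ∑ j ∈ Finset.range (2 * m + 1), al j = 1 := sum_coef m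
  have hexp : ∀ t : ℝ, Real.cos t ^ (2 * m) =
      ∑ j ∈ Finset.range (2 * m + 1), al j * Real.cos ((2 * (b j : ℝ)) * t) := by
    intro t
    rw [hE m t, Finset.sum_div]
    refine Finset.sum_congr rfl fun j _ => ?_
    rw [hbr]
    simp only [hal]
    ring
  -- the function `∫ cos(t w)^(2m) dμ(w)`
  have bd : ∀ (f : ℝ → ℝ), Measurable f → Integrable (fun x => Real.cos (f x)) μ := by
    intro f hf
    refine Integrable.mono' (integrable_const (1 : ℝ))
      (Real.measurable_cos.comp hf).aestronglyMeasurable ?_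
    exact Filter.Eventually.of_forall fun x => by
      rw [Real.norm_eq_abs]; exact Real.abs_cos_le_one _
  have hint : ∀ t : ℝ, ∫ w, Real.cos (t * w) ^ (2 * m) ∂μ =
      ∑ j ∈ Finset.range (2 * m + 1), al j * ph μ ((2 * (b j : ℝ)) * t) := by
    intro t
    simp_rw [hexp]
    rw [integral_finsetSum]
    · refine Finset.sum_congr rfl fun j _ => ?_
      rw [integral_const_mul, ph]
      simp_rw [mul_assoc]
    · intro j _
      exact (bd _ (by fun_prop)).const_mul _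
  -- Jensen
  have hjen : ∀ t : ℝ, ph μ t ^ (2 * m) ≤ ∫ w, Real.cos (t * w) ^ (2 * m) ∂μ := by
    intro t
    have hc : ConvexOn ℝ univ (fun x : ℝ => x ^ (2 * m)) := (even_two_mul m).convexOn_pow
    have := hc.map_integral_le (μ := μ) (f := fun w => Real.cos (t * w))
      (by fun_prop) isClosed_univ (by simp) (bd _ (by fun_prop)) (by
        refine Integrable.mono' (integrable_const (1 : ℝ)) (by fun_prop) ?_
        refine Filter.Eventually.of_forall fun x => ?_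
        simp only [Function.comp, norm_pow, Real.norm_eq_abs]
        exact pow_le_one₀ (abs_nonneg _) (Real.abs_cos_le_one _))
    exact this
  have hph : ∀ t, |ph μ t| ≤ 1 := by
    intro t
    have := (isLaw_ph B.int 1).ok.abs_le t
    simpa using this
  -- the comparison function
  have okj : ∀ j ∈ Finset.range (2 * m + 1),
      Ok (fun t => ph μ ((2 * (b j : ℝ)) * t) * ph μ t ^ 4) :=
    fun j _ => (G4_mix B (2 * (b j : ℝ))).1
  have S1 := Lf_sum (Finset.range (2 * m + 1)) al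
    (fun j t => ph μ ((2 * (b j : ℝ)) * t) * ph μ t ^ 4) okj hal1
  have S1i := int_sum (Finset.range (2 * m + 1)) al
    (fun j t => ph μ ((2 * (b j : ℝ)) * t) * ph μ t ^ 4) okj hal1
  have okp : Ok (fun t => ph μ t ^ (2 * (m + 2))) := by
    obtain ⟨ν, h⟩ := (isLaw_ph B.int 1).pow (2 * (m + 2))
    simpa using h.ok
  have step1 : Lf (fun t => ∑ j ∈ Finset.range (2 * m + 1),
      al j * (ph μ ((2 * (b j : ℝ)) * t) * ph μ t ^ 4)) ≤
      Lf (fun t => ph μ t ^ (2 * (m + 2))) := by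
    refine Lf_anti' okp.int S1i (fun t _ => ?_)
    have e1 : ∑ j ∈ Finset.range (2 * m + 1),
        al j * (ph μ ((2 * (b j : ℝ)) * t) * ph μ t ^ 4) =
        (∫ w, Real.cos (t * w) ^ (2 * m) ∂μ) * ph μ t ^ 4 := by
      rw [hint, Finset.sum_mul]
      exact Finset.sum_congr rfl fun j _ => by ring
    rw [e1, show 2 * (m + 2) = 2 * m + 4 by ring, pow_add]
    have h4 : 0 ≤ ph μ t ^ 4 := by positivity
    exact mul_le_mul_of_nonneg_right (hjen t) h4
  -- termwise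
  have step2 : ∑ j ∈ Finset.range (2 * m + 1),
      al j * (Lf (fun t => Real.cos ((2 * (b j : ℝ)) * t) * Real.cos t ^ 4) +
        (cc q - 1) / 4 * (max |(2 * (b j : ℝ))| 4 - |(2 * (b j : ℝ))|)) ≤
      ∑ j ∈ Finset.range (2 * m + 1),
        al j * Lf (fun t => ph μ ((2 * (b j : ℝ)) * t) * ph μ t ^ 4) :=
    Finset.sum_le_sum fun j _ => mul_le_mul_of_nonneg_left (term B (b j)) (hal0 j)
  -- evaluation of the left side
  have S2 := Lf_sum (Finset.range (2 * m + 1)) al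
    (fun j t => Real.cos ((2 * (b j : ℝ)) * t) * Real.cos t ^ 4)
    (fun j _ => ok_cospow' _ 4) hal1
  have S3 := Lf_sum (Finset.range (2 * m + 1)) al
    (fun j t => Real.cos ((2 * (b j : ℝ)) * t) * Real.cos (4 * t))
    (fun j _ => ok_cos_cos _ 4) hal1
  have S4 := Lf_sum (Finset.range (2 * m + 1)) al
    (fun j t => Real.cos ((2 * (b j : ℝ)) * t)) (fun j _ => ok_cos _) hal1
  have T2 : (fun t => ∑ j ∈ Finset.range (2 * m + 1),
      al j * (Real.cos ((2 * (b j : ℝ)) * t) * Real.cos t ^ 4)) =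
      fun t => Real.cos t ^ (2 * (m + 2)) := by
    ext t
    rw [show 2 * (m + 2) = 2 * m + 4 by ring, pow_add, hexp, Finset.sum_mul]
    exact Finset.sum_congr rfl fun j _ => by ring
  have T4 : (fun t => ∑ j ∈ Finset.range (2 * m + 1),
      al j * Real.cos ((2 * (b j : ℝ)) * t)) = fun t => Real.cos t ^ (2 * m) := by
    ext t
    exact (hexp t).symm
  have T3 : (fun t => ∑ j ∈ Finset.range (2 * m + 1),
      al j * (Real.cos ((2 * (b j : ℝ)) * t) * Real.cos (4 * t))) =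
      fun t => Real.cos (4 * t) * Real.cos t ^ (2 * m) := by
    ext t
    rw [hexp, Finset.mul_sum]
    exact Finset.sum_congr rfl fun j _ => by ring
  rw [T2, hJ (m + 2)] at S2
  rw [T3] at S3
  rw [T4, hJ m] at S4
  simp only [Lf_cos_cos, Lf_cos, show |(4 : ℝ)| = 4 by norm_num] at S3 S4
  -- `cos 4t cos^(2m)`
  have h4 : Lf (fun t => Real.cos (4 * t) * Real.cos t ^ (2 * m)) =
      8 * Lf (fun t => Real.cos t ^ (2 * (m + 2))) - 8 * Lf (fun t => Real.cos t ^ (2 * (m + 1))) +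
        Lf (fun t => Real.cos t ^ (2 * m)) := by
    have g1 := Lf_aff (ok_cospow' 4 (2 * m)) (ok_cospow (2 * (m + 1))) (α := 1 / 9) (β := 8 / 9)
      (by norm_num)
    have g2 := Lf_aff (ok_cospow (2 * (m + 2))) (ok_cospow (2 * m)) (α := 8 / 9) (β := 1 / 9)
      (by norm_num)
    have e : (fun t : ℝ => (1 / 9 : ℝ) * (Real.cos (4 * t) * Real.cos t ^ (2 * m)) +
        8 / 9 * Real.cos t ^ (2 * (m + 1))) =
        fun t => 8 / 9 * Real.cos t ^ (2 * (m + 2)) + 1 / 9 * Real.cos t ^ (2 * m) := by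
      ext t
      have c2 : Real.cos (2 * t) = 2 * Real.cos t ^ 2 - 1 := Real.cos_two_mul t
      have c4 : Real.cos (4 * t) = 2 * (2 * Real.cos t ^ 2 - 1) ^ 2 - 1 := by
        rw [show 4 * t = 2 * (2 * t) by ring, Real.cos_two_mul, c2]
      rw [c4]
      ring
    rw [e, g2] at g1
    linarith
  rw [h4, hJ (m + 2), hJ (m + 1), hJ m] at S3
  -- the binomial relation
  have hbin : 2 * ((m : ℝ) + 2) * bb (m + 2) = (2 * (m : ℝ) + 3) * bb (m + 1) := by
    have h := Nat.succ_mul_centralBinom_succ (m + 1)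
    have h' : ((m : ℝ) + 2) * (Nat.centralBinom (m + 2) : ℝ) =
        2 * (2 * ((m : ℝ) + 1) + 1) * (Nat.centralBinom (m + 1) : ℝ) := by
      have := congrArg (Nat.cast : ℕ → ℝ) h
      push_cast at this
      rw [show m + 1 + 1 = m + 2 by ring] at this
      linarith
    unfold bb
    rw [show (4 : ℝ) ^ (m + 2) = 4 * 4 ^ (m + 1) by ring]
    field_simp
    linarith
  push_cast at S2 S3 S4
  have key : ∑ j ∈ Finset.range (2 * m + 1),
      al j * (Lf (fun t => Real.cos ((2 * (b j : ℝ)) * t) * Real.cos t ^ 4) +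
        (cc q - 1) / 4 * (max |(2 * (b j : ℝ))| 4 - |(2 * (b j : ℝ))|)) =
      ∑ j ∈ Finset.range (2 * m + 1),
        al j * Lf (fun t => Real.cos ((2 * (b j : ℝ)) * t) * Real.cos t ^ 4) +
      (cc q - 1) / 4 * (∑ j ∈ Finset.range (2 * m + 1), al j * max |(2 * (b j : ℝ))| 4 -
        ∑ j ∈ Finset.range (2 * m + 1), al j * |(2 * (b j : ℝ))|) := by
    rw [← Finset.sum_sub_distrib, Finset.mul_sum, ← Finset.sum_add_distrib]
    exact Finset.sum_congr rfl fun j _ => by ring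
  rw [key, ← S2, ← S3, ← S4] at step2
  refine le_trans (le_trans ?_ (step2.trans S1.ge)) step1
  have e9 : 2 * ((m : ℝ) + 2) * bb (m + 2) + (cc q - 1) / 4 *
      (8 * (2 * ((m : ℝ) + 2) * bb (m + 2)) - 8 * (2 * ((m : ℝ) + 1) * bb (m + 1)) +
        2 * (m : ℝ) * bb m - 2 * (m : ℝ) * bb m) =
      bb (m + 1) * (2 * (m : ℝ) + 1 + 2 * cc q) := by
    rw [hbin]
    ring
  rw [← e9]

end Pool.Agent.Helper75.NO
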